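import Pool.Agent.H14.Mag

set_option autoImplicit false

namespace Pool.Agent.Results.MP_efe8c5_co.Counter

open Matrix Pool.Agent.H14.Mag
open scoped ComplexOrder

def G : SimpleGraph (Fin 5) where
  Adj a b := a ≠ b ∧ ((a ≠ 4 ∧ b ≠ 4) ∨ a = 0 ∨ b = 0)
  symm := ⟨by decide⟩
  loopless := ⟨by decide⟩

instance : DecidableRel G.Adj := fun a b => by unfold G; infer_instance

theorem low : (57 / 100 : ℝ) ≤ nu G := by
  have hp : IsPot G (fun _ _ => -1) := fun _ _ _ => by simp
  refine le_trans (le_lam1 _ (herm G _ hp) _ ?_) (le_nu G _ hp)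
  have hd : ∀ x, G.degree x = ![4, 3, 3, 3, 1] x := by decide
  have ha : ∀ a b, G.Adj a b ↔ a ≠ b ∧ ((a ≠ 4 ∧ b ≠ 4) ∨ a = 0 ∨ b = 0) := fun _ _ => Iff.rfl
  let B : Matrix (Fin 2) (Fin 5) ℂ := !![1, 1, 1, 1, 0; 20 / 13, 0, 0, 0, 13 / 20]
  let d : Fin 5 → ℝ := ![243 / 100 - 400 / 169, 143 / 100, 143 / 100, 143 / 100, 3 / 400]
  have e : magLap G (fun _ _ => -1) - ((57 / 100 : ℝ) : ℂ) • (1 : Matrix (Fin 5) (Fin 5) ℂ) =
      Bᴴ * B + diagonal (fun i => (d i : ℂ)) := by
    ext i j
    simp only [Matrix.sub_apply, Matrix.add_apply, Matrix.mul_apply, Fin.sum_univ_two, magLap, hd,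
      ha, conjTranspose_apply]
    fin_cases i <;> fin_cases j <;> simp [B, d] <;> norm_num
  rw [e]
  refine (posSemidef_conjTranspose_mul_self B).add (PosSemidef.diagonal fun i => ?_)
  refine Complex.zero_le_real.mpr ?_
  fin_cases i <;> simp [d] <;> norm_num

theorem up : nu (susp G) ≤ (14 / 9 : ℝ) := by
  refine nu_le _ _ fun σ hσ => ?_
  have h := ((psd_lam1 _ (herm _ σ hσ)).submatrix ![some 4, some 0, none]).dotProduct_mulVec_nonneg
    ![1, (1 / 5) * starRingEnd ℂ (σ (some 4) (some 0)), (1 / 5) * starRingEnd ℂ (σ (some 4) none)]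
  have a1 : (susp G).Adj (some 4) (some 0) := by decide
  have a2 : (susp G).Adj (some 4) none := by decide
  have a3 : (susp G).Adj (some 0) none := by decide
  have d1 : ∀ x (inst : Fintype ((susp G).neighborSet x)), @SimpleGraph.degree _ _ x inst =
      if x = some 4 then 2 else if x = some 0 ∨ x = none then 5 else 4 := by
    intro x inst
    rw [Subsingleton.elim inst ((susp G).neighborSetFintype x)]
    clear inst
    revert x
    decide
  obtain ⟨n1, c1⟩ := hσ _ _ a1
  obtain ⟨n2, c2⟩ := hσ _ _ a2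
  obtain ⟨n3, c3⟩ := hσ _ _ a3
  generalize lam1 (magLap (susp G) σ) = l at h ⊢
  simp only [dotProduct, mulVec, Fin.sum_univ_three, submatrix_apply, Matrix.sub_apply, magLap,
    Matrix.smul_apply, one_apply, Pi.star_apply, cons_val_zero, cons_val_one, cons_val_two,
    head_cons, tail_cons, a1, a2, a3, a1.symm, a2.symm, a3.symm, d1, true_or, or_true, c1, c2, c3,
    reduceCtorEq, Option.some.injEq, if_true, if_false, Fin.reduceEq] at h
  generalize σ (some 4) (some 0) = a at *
  generalize σ (some 4) none = b at *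
  generalize σ (some 0) none = c at *
  have m1 : a.re ^ 2 + a.im ^ 2 = 1 := by
    have := Complex.sq_norm a; rw [n1, Complex.normSq_apply] at this; nlinarith
  have m2 : b.re ^ 2 + b.im ^ 2 = 1 := by
    have := Complex.sq_norm b; rw [n2, Complex.normSq_apply] at this; nlinarith
  have m3 : -1 ≤ (a * c * starRingEnd ℂ b).re := by
    have h1 := Complex.abs_re_le_norm (a * c * starRingEnd ℂ b)
    rw [norm_mul, norm_mul, Complex.norm_conj, n1, n2, n3] at h1
    have := neg_abs_le (a * c * starRingEnd ℂ b).re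
    linarith
  have h := (Complex.nonneg_iff.mp h).1
  simp at h m3
  have e1 : l * (a.re ^ 2 + a.im ^ 2) = l := by rw [m1, mul_one]
  have e2 : l * (b.re ^ 2 + b.im ^ 2) = l := by rw [m2, mul_one]
  nlinarith

theorem result :
    ¬ ∀ (V : Type) [Fintype V] [DecidableEq V] [Nonempty V] (G : SimpleGraph V)
      [DecidableRel G.Adj], (∀ x, ∃ y, G.Adj x y) → nu (susp G) = nu G + 1 := by
  intro h
  have := h (Fin 5) G (by decide)
  have := low
  have := up
  linarith

end Pool.Agent.Results.MP_efe8c5_co.Counter
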